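import Pool.Agent.W5h25.ErdosPowA

set_option autoImplicit false

/-!
The lower bound of the sum of the terms `(1 - k/(m+1))^n` for `m ≥ 1000`.
-/

namespace Pool.Agent.W5h25.ErdosPow

open Finset

lemma sum_N (z : ℝ) (K : ℕ) :
    ∑ i ∈ range K, (1 / 2 : ℝ) ^ (i + 1) * N z (i + 1) =
      4 * z ^ 2 + 32 * z ^ 3 - (1 / 2 : ℝ) ^ K * (z * ((K : ℝ) ^ 2 + K) / 2 +
        z ^ 2 * ((K : ℝ) ^ 3 + 3 * K ^ 2 + 8 * K + 12) / 3 +
        z ^ 3 * (2 / 5 * (K : ℝ) ^ 4 + 8 / 5 * K ^ 3 + 36 / 5 * K ^ 2 + 104 / 5 * K + 32)) := by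
  induction K with
  | zero => simp; ring
  | succ K ih =>
    rw [sum_range_succ, ih]
    unfold N
    push_cast
    rw [pow_succ (1 / 2 : ℝ) K]
    ring

lemma exp_neg_ge {w : ℝ} (h : |w| ≤ 1) :
    1 - w + (|w| ^ 2 / 2 - 2 / 9 * |w| ^ 3) ≤ Real.exp (-w) := by
  have h1 := Real.exp_bound (x := -w) (by rw [abs_neg]; exact h) (n := 3) (by norm_num)
  have h2 := (abs_le.mp h1).1
  simp only [Finset.sum_range_succ, Finset.sum_range_zero] at h2
  norm_num [Nat.factorial] at h2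
  rw [sq_abs]
  linarith

lemma phi_mono {x y : ℝ} (hy : 0 ≤ y) (hxy : y ≤ x) (hx : x ≤ 1) :
    y ^ 2 / 2 - 2 / 9 * y ^ 3 ≤ x ^ 2 / 2 - 2 / 9 * x ^ 3 := by
  have h1 : 0 ≤ x := hy.trans hxy
  have e : (x ^ 2 / 2 - 2 / 9 * x ^ 3) - (y ^ 2 / 2 - 2 / 9 * y ^ 3) =
      (x - y) * ((x + y) / 2 - 2 / 9 * (x ^ 2 + x * y + y ^ 2)) := by ring
  have h2 : 0 ≤ (x + y) / 2 - 2 / 9 * (x ^ 2 + x * y + y ^ 2) := by
    have a1 : x ^ 2 ≤ x := by nlinarith
    have a2 : x * y ≤ y := by nlinarith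
    have a3 : y ^ 2 ≤ y := by nlinarith
    linarith
  have h3 := mul_nonneg (sub_nonneg.mpr hxy) h2
  linarith

/-- the second order contribution -/
lemma second_order {z t w : ℝ} (hz0 : 0 ≤ z) (hz : z ≤ 1 / 1000) (ht : 0 ≤ t)
    (hw : t * z ≤ |w|) (hw1 : |w| ≤ 1) :
    (t ^ 2 / 2 - 2 / 9 * t ^ 3 / 1000) * z ^ 2 ≤ |w| ^ 2 / 2 - 2 / 9 * |w| ^ 3 := by
  have h1 := phi_mono (mul_nonneg ht hz0) hw hw1
  have h2 : 2 / 9 * (t * z) ^ 3 ≤ 2 / 9 * t ^ 3 / 1000 * z ^ 2 := by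
    have e : 2 / 9 * (t * z) ^ 3 = 2 / 9 * t ^ 3 * z ^ 2 * z := by ring
    rw [e]
    have h3 : 0 ≤ 2 / 9 * t ^ 3 * z ^ 2 := by positivity
    have := mul_le_mul_of_nonneg_left hz h3
    linarith
  have e2 : (t * z) ^ 2 / 2 = t ^ 2 / 2 * z ^ 2 := by ring
  linarith

/-- lower bounds `t k * z ≤ |w k|` -/
noncomputable def tt (k : ℕ) : ℝ :=
  if k = 1 then 6927 / 10000 else if k = 2 then 6927 / 10000 else
    6928 / 10000 * ((k : ℝ) * (k - 3) / 2)

lemma tt_nonneg {k : ℕ} (hk : 1 ≤ k) : 0 ≤ tt k := by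
  unfold tt
  split_ifs with h1 h2
  · norm_num
  · norm_num
  · have h3 : (3 : ℝ) ≤ k := by
      have : 3 ≤ k := by omega
      exact_mod_cast this
    have h4 : 0 ≤ (k : ℝ) * (k - 3) := mul_nonneg (by linarith) (by linarith)
    linarith

lemma w_bounds {z lam : ℝ} (hz0 : 0 ≤ z) (hz : z ≤ 1 / 1000) (hl0 : 6928 / 10000 ≤ lam)
    (hl1 : lam ≤ 69315 / 100000) {k : ℕ} (hk : 1 ≤ k) (hk2 : k ≤ 20) :
    tt k * z ≤ |lam * N z k| ∧ |lam * N z k| ≤ 1 := by
  have hz2 : z ^ 2 ≤ 1 / 1000 * z := by nlinarith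
  have hz3 : z ^ 3 ≤ 1 / 1000000 * z := by nlinarith [mul_nonneg hz0 (sq_nonneg z)]
  have hz2' : 0 ≤ z ^ 2 := by positivity
  have hz3' : 0 ≤ z ^ 3 := by positivity
  have hl : 0 ≤ lam := by linarith
  by_cases h1 : k = 1
  · subst h1
    have e : lam * N z 1 = -(lam * (z - 2 * z ^ 3)) := by
      unfold N
      push_cast
      ring
    have et : tt 1 = 6927 / 10000 := by unfold tt; norm_num
    rw [e, et, abs_neg, abs_of_nonneg (mul_nonneg hl (by linarith))]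
    constructor
    · have : 6928 / 10000 * (z - 2 * z ^ 3) ≤ lam * (z - 2 * z ^ 3) :=
        mul_le_mul_of_nonneg_right hl0 (by linarith)
      linarith
    · have : lam * (z - 2 * z ^ 3) ≤ 1 * (z - 2 * z ^ 3) :=
        mul_le_mul_of_nonneg_right (by linarith) (by linarith)
      linarith
  · by_cases h2 : k = 2
    · subst h2
      have e : lam * N z 2 = -(lam * (z - 12 / 5 * z ^ 3)) := by
        unfold N
        push_cast
        ring
      have et : tt 2 = 6927 / 10000 := by unfold tt; norm_num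
      rw [e, et, abs_neg, abs_of_nonneg (mul_nonneg hl (by linarith))]
      constructor
      · have : 6928 / 10000 * (z - 12 / 5 * z ^ 3) ≤ lam * (z - 12 / 5 * z ^ 3) :=
          mul_le_mul_of_nonneg_right hl0 (by linarith)
        linarith
      · have : lam * (z - 12 / 5 * z ^ 3) ≤ 1 * (z - 12 / 5 * z ^ 3) :=
          mul_le_mul_of_nonneg_right (by linarith) (by linarith)
        linarith
    · have h3 : 3 ≤ k := by omega
      have hk3 : (3 : ℝ) ≤ k := by exact_mod_cast h3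
      have hk20 : (k : ℝ) ≤ 20 := by exact_mod_cast hk2
      unfold tt
      rw [if_neg h1, if_neg h2]
      have a1 : 0 ≤ (k : ℝ) * (k - 3) / 2 := by
        have := mul_nonneg (by linarith : (0 : ℝ) ≤ k) (by linarith : (0 : ℝ) ≤ (k : ℝ) - 3)
        linarith
      have a2 : 0 ≤ (k : ℝ) * (k - 1) * (k - 2) / 3 := by
        have := mul_nonneg (mul_nonneg (by linarith : (0 : ℝ) ≤ k)
          (by linarith : (0 : ℝ) ≤ (k : ℝ) - 1)) (by linarith : (0 : ℝ) ≤ (k : ℝ) - 2)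
        linarith
      have a3 : 0 ≤ 2 / 5 * ((k : ℝ) - 1) ^ 4 + 2 := by positivity
      have b1 : (k : ℝ) * (k - 3) / 2 ≤ 170 := by nlinarith
      have b2 : (k : ℝ) * (k - 1) * (k - 2) / 3 ≤ 2400 := by
        have : (k : ℝ) * (k - 1) ≤ 380 := by nlinarith
        nlinarith
      have b3 : 2 / 5 * ((k : ℝ) - 1) ^ 4 + 2 ≤ 60000 := by
        have c1 : ((k : ℝ) - 1) ^ 2 ≤ 361 := by nlinarith
        have c2 : ((k : ℝ) - 1) ^ 4 ≤ 361 * 361 := by
          have : ((k : ℝ) - 1) ^ 4 = ((k : ℝ) - 1) ^ 2 * ((k : ℝ) - 1) ^ 2 := by ring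
          rw [this]
          exact mul_le_mul c1 c1 (by positivity) (by norm_num)
        linarith
      have hN1 : (k : ℝ) * (k - 3) / 2 * z ≤ N z k := by
        unfold N
        have := mul_nonneg a2 hz2'
        have := mul_nonneg a3 hz3'
        linarith
      have hN0 : 0 ≤ N z k := (mul_nonneg a1 hz0).trans hN1
      have hN2 : N z k ≤ 1 := by
        unfold N
        have d1 : (k : ℝ) * (k - 3) / 2 * z ≤ 170 * z := mul_le_mul_of_nonneg_right b1 hz0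
        have d2 : (k : ℝ) * (k - 1) * (k - 2) / 3 * z ^ 2 ≤ 2400 * z ^ 2 :=
          mul_le_mul_of_nonneg_right b2 hz2'
        have d3 : (2 / 5 * ((k : ℝ) - 1) ^ 4 + 2) * z ^ 3 ≤ 60000 * z ^ 3 :=
          mul_le_mul_of_nonneg_right b3 hz3'
        linarith
      rw [abs_of_nonneg (mul_nonneg hl hN0)]
      constructor
      · calc 6928 / 10000 * ((k : ℝ) * (k - 3) / 2) * z
            = 6928 / 10000 * ((k : ℝ) * (k - 3) / 2 * z) := by ring
          _ ≤ 6928 / 10000 * N z k := mul_le_mul_of_nonneg_left hN1 (by norm_num)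
          _ ≤ lam * N z k := mul_le_mul_of_nonneg_right hl0 hN0
      · calc lam * N z k ≤ 1 * 1 := mul_le_mul (by linarith) hN2 hN0 (by norm_num)
          _ = 1 := by norm_num

lemma numeric : (284 / 100 : ℝ) ≤
    ∑ i ∈ range 20, (1 / 2 : ℝ) ^ (i + 1) *
      (tt (i + 1) ^ 2 / 2 - 2 / 9 * tt (i + 1) ^ 3 / 1000) := by
  simp only [Finset.sum_range_succ, Finset.sum_range_zero, tt]
  norm_num

lemma pow_gt (K : ℕ) (hK : 20 ≤ K) : 400 * K ^ 2 < 2 ^ K := by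
  induction K, hK using Nat.le_induction with
  | base => norm_num
  | succ K hK ih =>
    rw [pow_succ 2 K]
    nlinarith

theorem analytic {m n : ℕ} (hm : 1000 ≤ m) (h : (1 - 1 / (m : ℝ)) ^ n > 1 / 2) :
    1 < ∑ i ∈ range m, (1 - ((i + 1 : ℕ) : ℝ) / ((m : ℝ) + 1)) ^ n := by
  set z : ℝ := 1 / (m : ℝ) with hz
  have hm0 : (1000 : ℝ) ≤ m := by exact_mod_cast hm
  have hmp : (0 : ℝ) < m := by linarith
  have hz0 : 0 < z := by positivity
  have hz1 : z ≤ 1 / 1000 := by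
    rw [hz]
    exact one_div_le_one_div_of_le (by norm_num) hm0
  set lam : ℝ := Real.log 2 / (1 + z / 2 + z ^ 2 / 3) with hlam
  have hz2 : z ^ 2 ≤ 1 / 1000000 := by nlinarith
  have hD : 0 < 1 + z / 2 + z ^ 2 / 3 := by positivity
  have hl0 : 6928 / 10000 ≤ lam := by
    rw [hlam, le_div_iff₀ hD]
    have := Real.log_two_gt_d9
    nlinarith
  have hl1 : lam ≤ 69315 / 100000 := by
    rw [hlam, div_le_iff₀ hD]
    have := Real.log_two_lt_d9
    nlinarith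
  obtain ⟨K, hK⟩ : ∃ K, K = m / 4 + 1 := ⟨_, rfl⟩
  have hKm : K ≤ m := by omega
  have hK4 : 4 * (K - 1) ≤ m := by omega
  have hK20 : 20 ≤ K := by omega
  have hmK : m < 4 * K := by omega
  -- step 1: restrict to `k ≤ K`
  have s1 : ∑ i ∈ range K, (1 - ((i + 1 : ℕ) : ℝ) / ((m : ℝ) + 1)) ^ n ≤
      ∑ i ∈ range m, (1 - ((i + 1 : ℕ) : ℝ) / ((m : ℝ) + 1)) ^ n := by
    apply Finset.sum_le_sum_of_subset_of_nonneg
    · intro i hi
      rw [mem_range] at *
      omega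
    · intro i hi _
      rw [mem_range] at hi
      apply pow_nonneg
      rw [sub_nonneg, div_le_one (by linarith)]
      have : i + 1 ≤ m + 1 := by omega
      exact_mod_cast this
  -- step 2: lower bound for the terms
  have s2 : ∑ i ∈ range K, ((1 / 2 : ℝ) ^ (i + 1) * (1 - lam * N z (i + 1)) +
        (if i < 20 then (1 / 2 : ℝ) ^ (i + 1) *
          ((tt (i + 1) ^ 2 / 2 - 2 / 9 * tt (i + 1) ^ 3 / 1000) * z ^ 2) else 0)) ≤
      ∑ i ∈ range K, (1 - ((i + 1 : ℕ) : ℝ) / ((m : ℝ) + 1)) ^ n := by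
    apply Finset.sum_le_sum
    intro i hi
    rw [mem_range] at hi
    have t1 := term_lower (m := m) (n := n) (k := i + 1) hm (by omega) (by omega) h
    refine le_trans ?_ t1
    rw [← hz, ← hlam]
    have hp : (0 : ℝ) < (1 / 2) ^ (i + 1) := by positivity
    split_ifs with hi20
    · obtain ⟨b1, b2⟩ := w_bounds hz0.le hz1 hl0 hl1 (k := i + 1) (by omega) (by omega)
      have c1 := exp_neg_ge b2
      have c2 := second_order hz0.le hz1 (tt_nonneg (k := i + 1) (by omega)) b1 b2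
      have c3 : 1 - lam * N z (i + 1) +
          (tt (i + 1) ^ 2 / 2 - 2 / 9 * tt (i + 1) ^ 3 / 1000) * z ^ 2 ≤
          Real.exp (-(lam * N z (i + 1))) := by linarith
      have c4 := mul_le_mul_of_nonneg_left c3 hp.le
      linarith
    · have c1 := Real.add_one_le_exp (-(lam * N z (i + 1)))
      have c2 := mul_le_mul_of_nonneg_left c1 hp.le
      linarith
  -- step 3: evaluate
  have s3 : ∑ i ∈ range K, ((1 / 2 : ℝ) ^ (i + 1) * (1 - lam * N z (i + 1)) +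
        (if i < 20 then (1 / 2 : ℝ) ^ (i + 1) *
          ((tt (i + 1) ^ 2 / 2 - 2 / 9 * tt (i + 1) ^ 3 / 1000) * z ^ 2) else 0)) =
      (1 - (1 / 2 : ℝ) ^ K) - lam * (∑ i ∈ range K, (1 / 2 : ℝ) ^ (i + 1) * N z (i + 1)) +
      (∑ i ∈ range 20, (1 / 2 : ℝ) ^ (i + 1) *
          (tt (i + 1) ^ 2 / 2 - 2 / 9 * tt (i + 1) ^ 3 / 1000)) * z ^ 2 := by
    rw [Finset.sum_add_distrib]
    congr 1
    · have e1 : ∀ K : ℕ, ∑ i ∈ range K, (1 / 2 : ℝ) ^ (i + 1) = 1 - (1 / 2 : ℝ) ^ K := by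
        intro K
        induction K with
        | zero => simp
        | succ K ih =>
          rw [sum_range_succ, ih, pow_succ]
          ring
      rw [← e1, mul_sum, ← sum_sub_distrib]
      apply sum_congr rfl
      intro i _
      ring
    · rw [← sum_filter]
      have e2 : (range K).filter (fun i => i < 20) = range 20 := by
        ext i
        simp only [mem_filter, mem_range]
        omega
      rw [e2, sum_mul]
      apply sum_congr rfl
      intro i _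
      ring
  have s4 : ∑ i ∈ range K, (1 / 2 : ℝ) ^ (i + 1) * N z (i + 1) ≤ 4 * z ^ 2 + 32 * z ^ 3 := by
    rw [sum_N]
    have : 0 ≤ (1 / 2 : ℝ) ^ K * (z * ((K : ℝ) ^ 2 + K) / 2 +
        z ^ 2 * ((K : ℝ) ^ 3 + 3 * K ^ 2 + 8 * K + 12) / 3 +
        z ^ 3 * (2 / 5 * (K : ℝ) ^ 4 + 8 / 5 * K ^ 3 + 36 / 5 * K ^ 2 + 104 / 5 * K + 32)) := by
      positivity
    linarith
  have s5 : lam * (∑ i ∈ range K, (1 / 2 : ℝ) ^ (i + 1) * N z (i + 1)) ≤
      69315 / 100000 * (4 + 32 / 1000) * z ^ 2 := by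
    have c1 : lam * (∑ i ∈ range K, (1 / 2 : ℝ) ^ (i + 1) * N z (i + 1)) ≤
        lam * (4 * z ^ 2 + 32 * z ^ 3) := mul_le_mul_of_nonneg_left s4 (by linarith)
    have c2 : 4 * z ^ 2 + 32 * z ^ 3 ≤ (4 + 32 / 1000) * z ^ 2 := by
      have : z ^ 3 ≤ 1 / 1000 * z ^ 2 := by
        have e : z ^ 3 = z * z ^ 2 := by ring
        rw [e]
        exact mul_le_mul_of_nonneg_right hz1 (by positivity)
      linarith
    have c3 : lam * (4 * z ^ 2 + 32 * z ^ 3) ≤ lam * ((4 + 32 / 1000) * z ^ 2) :=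
      mul_le_mul_of_nonneg_left c2 (by linarith)
    have c4 : lam * ((4 + 32 / 1000) * z ^ 2) ≤ 69315 / 100000 * ((4 + 32 / 1000) * z ^ 2) :=
      mul_le_mul_of_nonneg_right hl1 (by positivity)
    linarith
  have s6 := mul_le_mul_of_nonneg_right numeric (by positivity : 0 ≤ z ^ 2)
  -- the tail
  have s7 : (1 / 2 : ℝ) ^ K < 4 / 100 * z ^ 2 := by
    have p1 : 400 * K ^ 2 < 2 ^ K := pow_gt K hK20
    have p2 : (400 : ℝ) * K ^ 2 < 2 ^ K := by exact_mod_cast p1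
    have p3 : (m : ℝ) < 4 * K := by exact_mod_cast hmK
    have p4 : 25 * (m : ℝ) ^ 2 < 2 ^ K := by nlinarith
    rw [one_div, inv_pow, hz, one_div, inv_pow]
    rw [inv_eq_one_div, inv_eq_one_div, div_lt_iff₀ (by positivity)]
    have e : 4 / 100 * (1 / (m : ℝ) ^ 2) * 2 ^ K = 2 ^ K / (25 * (m : ℝ) ^ 2) := by
      field_simp
      norm_num
    rw [e, lt_div_iff₀ (by positivity), one_mul]
    exact p4
  have hz2p : 0 < z ^ 2 := by positivity
  calc (1 : ℝ) < (1 - (1 / 2 : ℝ) ^ K) - 69315 / 100000 * (4 + 32 / 1000) * z ^ 2 +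
        284 / 100 * z ^ 2 := by linarith
    _ ≤ (1 - (1 / 2 : ℝ) ^ K) - lam * (∑ i ∈ range K, (1 / 2 : ℝ) ^ (i + 1) * N z (i + 1)) +
      (∑ i ∈ range 20, (1 / 2 : ℝ) ^ (i + 1) *
          (tt (i + 1) ^ 2 / 2 - 2 / 9 * tt (i + 1) ^ 3 / 1000)) * z ^ 2 := by linarith
    _ ≤ _ := by
      rw [← s3]
      exact s2.trans s1

end Pool.Agent.W5h25.ErdosPow
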