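import Mathlib

set_option autoImplicit false

/-!
The finite check for `m < 1000` and elementary monotonicity lemmas.
-/

namespace Pool.Agent.W5h25.ErdosPow

open Finset

/-- the largest `n` with `m ^ n < 2 (m - 1) ^ n`, for `3 ≤ m < 1000` -/
def nm (m : ℕ) : ℕ := 6931471 * (2 * m - 1) / 20000000

/-- the sum of `(m - i) ^ e` over `i < c` -/
def tailSum (m e : ℕ) : ℕ → ℕ
  | 0 => 0
  | (c + 1) => tailSum m e c + (m - c) ^ e

def chk (m : ℕ) : Bool :=
  (m < 3) || (decide (1 ≤ nm m) && decide (2 * (m - 1) ^ (nm m + 1) ≤ m ^ (nm m + 1)) &&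
    decide ((m + 1) ^ (nm m) < tailSum m (nm m) 40))

theorem chk_all : (List.range 1000).all chk = true := by
  decide +kernel

lemma tailSum_le (m e : ℕ) (he : 1 ≤ e) (c : ℕ) :
    tailSum m e c ≤ ∑ i ∈ Icc 1 m, i ^ e := by
  have h1 : ∀ c, tailSum m e c = ∑ i ∈ range c, (m - i) ^ e := by
    intro c
    induction c with
    | zero => simp [tailSum]
    | succ c ih => rw [tailSum, ih, sum_range_succ]
  rw [h1]
  have h2 : ∑ i ∈ range c, (m - i) ^ e = ∑ i ∈ (range c).filter (fun i => i < m), (m - i) ^ e := by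
    rw [sum_filter]
    apply sum_congr rfl
    intro i _
    split_ifs with h
    · rfl
    · have : m - i = 0 := by omega
      rw [this, zero_pow (by omega)]
  rw [h2]
  have h3 : ∑ i ∈ (range c).filter (fun i => i < m), (m - i) ^ e =
      ∑ j ∈ ((range c).filter (fun i => i < m)).image (fun i => m - i), j ^ e := by
    rw [sum_image]
    intro i hi j hj h
    simp only [coe_filter, mem_range, Set.mem_ofPred_eq] at hi hj
    simp only at h
    omega
  rw [h3]
  apply sum_le_sum_of_subset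
  intro j hj
  rw [mem_image] at hj
  obtain ⟨i, hi, rfl⟩ := hj
  rw [mem_filter] at hi
  rw [mem_Icc]
  omega

/-- from the exponent `n'` to smaller exponents -/
lemma down {m n n' : ℕ} (h : n ≤ n') (h1 : (m + 1) ^ n' < ∑ i ∈ Icc 1 m, i ^ n') :
    (m + 1) ^ n < ∑ i ∈ Icc 1 m, i ^ n := by
  by_contra hcon
  rw [not_lt] at hcon
  obtain ⟨d, rfl⟩ : ∃ d, n' = n + d := ⟨n' - n, by omega⟩
  have h2 : ∑ i ∈ Icc 1 m, i ^ (n + d) ≤ (∑ i ∈ Icc 1 m, i ^ n) * (m + 1) ^ d := by
    rw [sum_mul]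
    apply sum_le_sum
    intro i hi
    rw [mem_Icc] at hi
    rw [pow_add]
    exact Nat.mul_le_mul_left _ (Nat.pow_le_pow_left (by omega) d)
  have h3 : (∑ i ∈ Icc 1 m, i ^ n) * (m + 1) ^ d ≤ (m + 1) ^ n * (m + 1) ^ d :=
    Nat.mul_le_mul_right _ hcon
  rw [← pow_add] at h3
  omega

lemma le_nm {m n : ℕ} (h2 : m ^ n < 2 * (m - 1) ^ n)
    (h3 : 2 * (m - 1) ^ (nm m + 1) ≤ m ^ (nm m + 1)) : n ≤ nm m := by
  by_contra hcon
  obtain ⟨d, rfl⟩ : ∃ d, n = nm m + 1 + d := ⟨n - (nm m + 1), by omega⟩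
  generalize nm m + 1 = e at h2 h3
  have h4 : 2 * (m - 1) ^ (e + d) ≤ m ^ (e + d) := by
    rw [pow_add, pow_add, ← mul_assoc]
    exact Nat.mul_le_mul h3 (Nat.pow_le_pow_left (by omega) d)
  omega

theorem small {m n : ℕ} (hm : 2 ≤ m) (hm1 : m < 1000) (hn : 1 ≤ n)
    (h2 : m ^ n < 2 * (m - 1) ^ n) : (m + 1) ^ n < ∑ i ∈ Icc 1 m, i ^ n := by
  have hc := List.all_eq_true.mp chk_all m (List.mem_range.mpr hm1)
  unfold chk at hc
  rw [Bool.or_eq_true] at hc
  rcases hc with hc | hc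
  · have : m = 2 := by
      have := of_decide_eq_true hc
      omega
    subst this
    exfalso
    norm_num at h2
    have : 2 ^ 1 ≤ 2 ^ n := Nat.pow_le_pow_right (by norm_num) hn
    omega
  · rw [Bool.and_eq_true, Bool.and_eq_true] at hc
    obtain ⟨⟨c0, c1⟩, c2⟩ := hc
    have c0 := of_decide_eq_true c0
    have c1 := of_decide_eq_true c1
    have c2 := of_decide_eq_true c2
    exact down (le_nm h2 c1) (lt_of_lt_of_le c2 (tailSum_le m _ c0 40))

end Pool.Agent.W5h25.ErdosPow
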