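import Mathlib

set_option autoImplicit false

/-!
Helper lemmas for the inequalities of Erdős between a power and a sum of consecutive powers.
-/

namespace Pool.Agent.W5h25.ErdosPow

open Finset

lemma neg_log_one_sub_le {y : ℝ} (h0 : 0 ≤ y) (h1 : y ≤ 1 / 4) :
    -Real.log (1 - y) ≤ y + y ^ 2 / 2 + y ^ 3 / 3 + 2 / 5 * y ^ 4 := by
  have h := Real.abs_log_sub_add_sum_range_le (x := y) (by rw [abs_of_nonneg h0]; linarith) 5
  rw [abs_of_nonneg h0] at h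
  have h2 := (abs_le.mp h).1
  simp only [Finset.sum_range_succ, Finset.sum_range_zero] at h2
  norm_num at h2
  have hy2 : y ^ 2 ≤ 1 / 16 := by nlinarith
  have hy4 : 0 ≤ y ^ 4 := by positivity
  have h3 : y ^ 6 / (1 - y) ≤ y ^ 4 / 12 := by
    rw [div_le_iff₀ (by linarith)]
    have e : y ^ 6 = y ^ 4 * y ^ 2 := by ring
    rw [e]
    nlinarith [mul_le_mul_of_nonneg_left hy2 hy4, mul_le_mul_of_nonneg_left h1 hy4]
  have h5 : y ^ 5 / 5 ≤ y ^ 4 / 20 := by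
    have e : y ^ 5 = y ^ 4 * y := by ring
    rw [e]
    nlinarith [mul_le_mul_of_nonneg_left h1 hy4]
  linarith

lemma log_one_add_le {z : ℝ} (h0 : 0 ≤ z) (h1 : z ≤ 1 / 2) :
    Real.log (1 + z) ≤ z - z ^ 2 / 2 + z ^ 3 / 3 + 2 * z ^ 4 := by
  have h := Real.abs_log_sub_add_sum_range_le (x := -z)
    (by rw [abs_neg, abs_of_nonneg h0]; linarith) 3
  rw [abs_neg, abs_of_nonneg h0] at h
  have h2 := (abs_le.mp h).2
  simp only [Finset.sum_range_succ, Finset.sum_range_zero] at h2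
  norm_num at h2
  have h3 : z ^ 4 / (1 - z) ≤ 2 * z ^ 4 := by
    rw [div_le_iff₀ (by linarith)]
    have hz4 : 0 ≤ z ^ 4 := by positivity
    nlinarith [mul_le_mul_of_nonneg_left h1 hz4]
  have e2 : (-z) ^ 2 = z ^ 2 := by ring
  have e3 : (-z) ^ 3 = -z ^ 3 := by ring
  rw [show (1 : ℝ) + z = 1 + z from rfl] at *
  nlinarith [h2, h3, e2, e3]

lemma le_neg_log_one_sub {z : ℝ} (h0 : 0 ≤ z) (h1 : z ≤ 1 / 5) :
    z + z ^ 2 / 2 + z ^ 3 / 3 ≤ -Real.log (1 - z) := by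
  have h := Real.abs_log_sub_add_sum_range_le (x := z) (by rw [abs_of_nonneg h0]; linarith) 4
  rw [abs_of_nonneg h0] at h
  have h2 := (abs_le.mp h).2
  simp only [Finset.sum_range_succ, Finset.sum_range_zero] at h2
  norm_num at h2
  have h3 : z ^ 5 / (1 - z) ≤ z ^ 4 / 4 := by
    rw [div_le_iff₀ (by linarith)]
    have e : z ^ 5 = z ^ 4 * z := by ring
    have hz4 : 0 ≤ z ^ 4 := by positivity
    rw [e]
    nlinarith [mul_le_mul_of_nonneg_left h1 hz4]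
  linarith

/-- the exponent correction -/
noncomputable def N (z : ℝ) (k : ℕ) : ℝ :=
  (k : ℝ) * (k - 3) / 2 * z + (k : ℝ) * (k - 1) * (k - 2) / 3 * z ^ 2 +
    (2 / 5 * ((k : ℝ) - 1) ^ 4 + 2) * z ^ 3

lemma term_lower {m n k : ℕ} (hm : 1000 ≤ m) (hk : 1 ≤ k) (hkm : 4 * (k - 1) ≤ m)
    (h : (1 - 1 / (m : ℝ)) ^ n > 1 / 2) :
    Real.exp (-(Real.log 2 / (1 + 1 / (m : ℝ) / 2 + (1 / (m : ℝ)) ^ 2 / 3) * N (1 / m) k)) *
      (1 / 2) ^ k ≤ (1 - (k : ℝ) / ((m : ℝ) + 1)) ^ n := by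
  set z : ℝ := 1 / (m : ℝ) with hz
  have hm0 : (1000 : ℝ) ≤ m := by exact_mod_cast hm
  have hmp : (0 : ℝ) < m := by linarith
  have hz0 : 0 < z := by positivity
  have hz1 : z ≤ 1 / 1000 := by
    rw [hz]
    exact one_div_le_one_div_of_le (by norm_num) hm0
  obtain ⟨j, rfl⟩ : ∃ j, k = j + 1 := ⟨k - 1, by omega⟩
  rw [Nat.add_sub_cancel] at hkm
  have hj : (j : ℝ) * z ≤ 1 / 4 := by
    have h4 : (4 : ℝ) * j ≤ m := by exact_mod_cast hkm
    rw [hz, mul_one_div, div_le_div_iff₀ hmp (by norm_num)]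
    linarith
  have hj0 : 0 ≤ (j : ℝ) * z := by positivity
  set L : ℝ := Real.log 2 with hL
  have hL0 : 0 < L := Real.log_pos (by norm_num)
  set c : ℝ := -Real.log (1 - z) with hc
  have hc1 : z + z ^ 2 / 2 + z ^ 3 / 3 ≤ c := le_neg_log_one_sub hz0.le (by linarith)
  have hP0 : 0 < z + z ^ 2 / 2 + z ^ 3 / 3 := by positivity
  have hc0 : 0 < c := lt_of_lt_of_le hP0 hc1
  have h1z : 0 < 1 - z := by linarith
  -- n c < L
  have hnc : (n : ℝ) * c < L := by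
    have h2 : Real.log (1 / 2) < Real.log ((1 - z) ^ n) :=
      Real.log_lt_log (by norm_num) h
    rw [Real.log_pow, one_div, Real.log_inv] at h2
    rw [hc]
    linarith
  -- the term
  have hfrac : 1 - ((j + 1 : ℕ) : ℝ) / ((m : ℝ) + 1) = (1 - j * z) / (1 + z) := by
    rw [hz]
    push_cast
    field_simp
    ring
  have hpos : 0 < (1 - j * z) / (1 + z) := div_pos (by linarith) (by linarith)
  set ℓ : ℝ := Real.log (1 + z) - Real.log (1 - j * z) with hℓ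
  have hlog : Real.log ((1 - j * z) / (1 + z)) = -ℓ := by
    rw [Real.log_div (by linarith) (by linarith), hℓ]
    ring
  have hℓ1 : ℓ ≤ (z - z ^ 2 / 2 + z ^ 3 / 3 + 2 * z ^ 4) +
      (j * z + (j * z) ^ 2 / 2 + (j * z) ^ 3 / 3 + 2 / 5 * (j * z) ^ 4) := by
    have e1 := log_one_add_le hz0.le (by linarith : z ≤ 1 / 2)
    have e2 := neg_log_one_sub_le hj0 hj
    rw [hℓ]
    linarith
  have hℓ0 : 0 ≤ ℓ := by
    have e1 : 0 ≤ Real.log (1 + z) := Real.log_nonneg (by linarith)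
    have e2 : Real.log (1 - j * z) ≤ 0 := Real.log_nonpos (by linarith) (by linarith)
    rw [hℓ]
    linarith
  rw [hfrac, ← Real.exp_log hpos, hlog, ← Real.exp_nat_mul]
  have h2k : ((1 : ℝ) / 2) ^ (j + 1) = Real.exp (-(L * (j + 1))) := by
    rw [hL]
    have : (1 : ℝ) / 2 = Real.exp (-Real.log 2) := by
      rw [Real.exp_neg, Real.exp_log (by norm_num)]
      norm_num
    rw [this, ← Real.exp_nat_mul]
    congr 1
    push_cast
    ring
  rw [h2k, ← Real.exp_add]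
  apply Real.exp_le_exp.mpr
  -- n ℓ ≤ L ℓ / c ≤ L (k + N/D)
  have hD : 0 < 1 + z / 2 + z ^ 2 / 3 := by positivity
  have key : (n : ℝ) * ℓ ≤ L * ((j + 1) + N z (j + 1) / (1 + z / 2 + z ^ 2 / 3)) := by
    have s1 : (n : ℝ) * ℓ * c ≤ L * ℓ := by
      have := mul_le_mul_of_nonneg_right hnc.le hℓ0
      linarith
    have s2 : ℓ ≤ c * ((j + 1) + N z (j + 1) / (1 + z / 2 + z ^ 2 / 3)) := by
      have e0 : ((j : ℝ) + 1) + N z (j + 1) / (1 + z / 2 + z ^ 2 / 3) =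
          ((z - z ^ 2 / 2 + z ^ 3 / 3 + 2 * z ^ 4) +
      (j * z + (j * z) ^ 2 / 2 + (j * z) ^ 3 / 3 + 2 / 5 * (j * z) ^ 4)) /
        (z + z ^ 2 / 2 + z ^ 3 / 3) := by
        have e : z + z ^ 2 / 2 + z ^ 3 / 3 = z * (1 + z / 2 + z ^ 2 / 3) := by ring
        rw [e, eq_div_iff (mul_pos hz0 hD).ne']
        unfold N
        push_cast
        field_simp
        ring
      rw [e0]
      have e1 : 0 ≤ (z - z ^ 2 / 2 + z ^ 3 / 3 + 2 * z ^ 4) +
          (j * z + (j * z) ^ 2 / 2 + (j * z) ^ 3 / 3 + 2 / 5 * (j * z) ^ 4) := hℓ0.trans hℓ1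
      refine hℓ1.trans ?_
      generalize (z - z ^ 2 / 2 + z ^ 3 / 3 + 2 * z ^ 4) +
          (j * z + (j * z) ^ 2 / 2 + (j * z) ^ 3 / 3 + 2 / 5 * (j * z) ^ 4) = Q at e1 ⊢
      have e6 : c * (Q / (z + z ^ 2 / 2 + z ^ 3 / 3)) = c * Q / (z + z ^ 2 / 2 + z ^ 3 / 3) := by
        ring
      rw [e6, le_div_iff₀ hP0, mul_comm Q]
      exact mul_le_mul_of_nonneg_right hc1 e1
    have s3 : L * ℓ ≤ L * (c * ((j + 1) + N z (j + 1) / (1 + z / 2 + z ^ 2 / 3))) :=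
      mul_le_mul_of_nonneg_left s2 hL0.le
    have s4 : (n : ℝ) * ℓ * c ≤
        (L * ((j + 1) + N z (j + 1) / (1 + z / 2 + z ^ 2 / 3))) * c := by
      linarith
    exact le_of_mul_le_mul_right s4 hc0
  have e5 : L / (1 + z / 2 + z ^ 2 / 3) * N z (j + 1) =
      L * (N z (j + 1) / (1 + z / 2 + z ^ 2 / 3)) := by ring
  rw [e5]
  linarith

end Pool.Agent.W5h25.ErdosPow
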